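import Pool.Agent.TH390.Tw.M7

/-!
# Almost all C-pairs on projective space have no integral points of small height

For almost all forms `F` of degree `d ≥ 2 n + 3` in `n + 1` variables with integer coefficients, no
C-pair `(Pⁿ, ∑ (1 - 1/m_i) D_i)` with `∑ D_i = div F` has an `S`-integral point of height at most
`H ^ θ` (or in a given set of at most `3 ^ (n + 1) * H ^ φ` points), for any `S` with
`∏_{p ∈ S} p ≤ H ^ κ`.
-/

set_option autoImplicit false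

namespace Pool.Agent.Results.MP_464c42_nt.AlmostAllHypersurfacePairs

open Finset Pool.Agent.TH390.Tw

/-- The point of `Pⁿ(ℚ)` with the coprime homogeneous coordinates `x 0, …, x n` is an integral point
over `ℤ[1/S]` of the C-pair `(Pⁿ, ∑ (1 - 1/m i) D i)`, where `D i` is the divisor of the form `G i`:
at every prime `p ∉ S` the multiplicity `v_p (G i x)` is `0` or at least `m i` (it is `∞` for a
point on `D i`). -/
def IsCPoint {n : ℕ} (S : Finset ℕ) {r : ℕ} (G : Fin r → MvPolynomial (Fin (n + 1)) ℤ)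
    (m : Fin r → ℕ∞) (x : Fin (n + 1) → ℤ) : Prop :=
  (∀ p : ℕ, p.Prime → ∃ j, ¬ (p : ℤ) ∣ x j) ∧
    ∀ (i : Fin r) (p : ℕ), p.Prime → p ∉ S → (p : ℤ) ∣ MvPolynomial.eval x (G i) →
      ∀ k : ℕ, (k : ℕ∞) ≤ m i → (p : ℤ) ^ k ∣ MvPolynomial.eval x (G i)

/-- some C-pair supported on the zeros of the form `F`, with any multiplicities `m i ≥ 2`, has a
point of `A` which is integral outside a finite set `S` of primes with `∏_{p ∈ S} p ≤ Q` -/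
def HasPoint {n : ℕ} (F : MvPolynomial (Fin (n + 1)) ℤ) (Q : ℝ)
    (A : Set (Fin (n + 1) → ℤ)) : Prop :=
  ∃ (S : Finset ℕ) (r : ℕ) (G : Fin r → MvPolynomial (Fin (n + 1)) ℤ) (m : Fin r → ℕ∞),
    (∀ p ∈ S, p.Prime) ∧ ∏ p ∈ S, (p : ℝ) ≤ Q ∧ ∏ i, G i = F ∧ (∀ i, 2 ≤ m i) ∧
      ∃ x ∈ A, IsCPoint S G m x

/-- the forms of degree `d` with integer coefficients in `[-H, H]` for which this happens -/
def Exceptional (n d H : ℕ) (Q : ℝ) (A : Set (Fin (n + 1) → ℤ)) :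
    Set (MvPolynomial (Fin (n + 1)) ℤ) :=
  {F | F.IsHomogeneous d ∧ (∀ e, |F.coeff e| ≤ (H : ℤ)) ∧ HasPoint F Q A}

theorem hasPoint_decomp {n : ℕ} (F : MvPolynomial (Fin (n + 1)) ℤ) (Q : ℝ)
    (A : Set (Fin (n + 1) → ℤ)) (h : HasPoint F Q A) :
    ∃ (s : ℤ) (k : ℕ) (m : ℤ), s ≠ 0 ∧ (s.natAbs : ℝ) ≤ Q ∧ 1 ≤ k ∧
      ∃ x ∈ A, Prim x ∧ MvPolynomial.eval x F = s * (k : ℤ) ^ 3 * m ^ 2 := by
  obtain ⟨S, r, G, m, hS, hQ, hG, hm, x, hxA, hxc, hx⟩ := h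
  have hfull : ∀ p : ℕ, p.Prime → p ∉ S → (p : ℤ) ∣ MvPolynomial.eval x F →
      (p : ℤ) ^ 2 ∣ MvPolynomial.eval x F := by
    intro p hp hpS hdvd
    rw [← hG, map_prod] at hdvd ⊢
    obtain ⟨i, _, hi⟩ := (Nat.prime_iff_prime_int.mp hp).exists_mem_finset_dvd hdvd
    exact (hx i p hp hpS hi 2 (hm i)).trans (Finset.dvd_prod_of_mem _ (Finset.mem_univ i))
  obtain ⟨s, k, c, hs, hsQ, hk, hN⟩ := decomp (MvPolynomial.eval x F) S hS hfull
  refine ⟨s, k, c, hs, ?_, hk, x, hxA, hxc, hN⟩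
  refine le_trans ?_ hQ
  have : (s.natAbs : ℝ) ≤ ((∏ p ∈ S, p : ℕ) : ℝ) := by exact_mod_cast hsQ
  rwa [Nat.cast_prod] at this

/-- **Almost all C-pairs on projective space have no integral points of small height.** -/
theorem result (n d : ℕ) (hd : 2 * n + 3 ≤ d) (κ θ σ : ℝ) (hκ0 : 0 ≤ κ) (hκ : κ < 1)
    (hσ0 : 2 / 3 < σ) (hσ1 : σ ≤ 1) (hθσ : 1 ≤ θ * σ) :
    ((n + 1) * θ + (1 + κ) * (1 - σ / 2) + θ * d * σ / 2 < d + 1 →
      ∃ η C : ℝ, 0 < η ∧ ∀ H : ℕ, 1 ≤ H →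
        (Exceptional n d H ((H : ℝ) ^ κ) {x | ∀ j, |(x j : ℝ)| ≤ (H : ℝ) ^ θ}).Finite ∧
        ((Exceptional n d H ((H : ℝ) ^ κ) {x | ∀ j, |(x j : ℝ)| ≤ (H : ℝ) ^ θ}).ncard : ℝ) ≤
          C * (H : ℝ) ^ (((n + d).choose n : ℝ) - η)) ∧
    ∀ φ : ℝ, φ + (1 + κ) * (1 - σ / 2) + θ * d * σ / 2 < d + 1 →
      ∃ η C : ℝ, 0 < η ∧ ∀ H : ℕ, 1 ≤ H → ∀ A : Finset (Fin (n + 1) → ℤ),
        (A.card : ℝ) ≤ 3 ^ (n + 1) * (H : ℝ) ^ φ →
        (∀ x ∈ A, ∀ j, |(x j : ℝ)| ≤ (H : ℝ) ^ θ) →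
        (Exceptional n d H ((H : ℝ) ^ κ) A).Finite ∧
        ((Exceptional n d H ((H : ℝ) ^ κ) A).ncard : ℝ) ≤
          C * (H : ℝ) ^ (((n + d).choose n : ℝ) - η) := by
  classical
  have hgen : ∀ φ : ℝ, φ + (1 + κ) * (1 - σ / 2) + θ * d * σ / 2 < d + 1 →
      ∃ η C : ℝ, 0 < η ∧ ∀ H : ℕ, 1 ≤ H → ∀ A : Finset (Fin (n + 1) → ℤ),
        (A.card : ℝ) ≤ 3 ^ (n + 1) * (H : ℝ) ^ φ →
        (∀ x ∈ A, ∀ j, |(x j : ℝ)| ≤ (H : ℝ) ^ θ) →
        (Exceptional n d H ((H : ℝ) ^ κ) A).Finite ∧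
        ((Exceptional n d H ((H : ℝ) ^ κ) A).ncard : ℝ) ≤
          C * (H : ℝ) ^ (((n + d).choose n : ℝ) - η) := by
    intro φ hφ
    obtain ⟨η, C, hη, hmain⟩ := mainSpace n d hd κ θ σ φ hκ0 hκ hσ0 hσ1 hθσ hφ
    refine ⟨η, C, hη, fun H hH A hA hAB => ?_⟩
    obtain ⟨V, hV, hVc⟩ := hmain H hH A hA hAB
    have hmaps : ∀ F ∈ Exceptional n d H ((H : ℝ) ^ κ) A, vec d F ∈ (V : Set (Idx n d → ℤ)) := by
      rintro F ⟨hF, hFb, hFp⟩
      obtain ⟨s, k, m, hs, hsQ, hk, x, hxA, hxc, hN⟩ := hasPoint_decomp F _ _ hFp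
      refine Finset.mem_coe.mpr (hV (vec d F) (mem_vbox.mpr fun i => hFb _) s k m hs hsQ hk x
        hxA hxc ?_)
      rw [ev_vec F hF]
      exact hN
    have hinj : Set.InjOn (vec d) (Exceptional n d H ((H : ℝ) ^ κ) A) := by
      rintro F ⟨hF, _⟩ F' ⟨hF', _⟩ hFF
      exact vec_inj hF hF' hFF
    refine ⟨Set.Finite.of_injOn hmaps hinj V.finite_toSet, ?_⟩
    have h1 := Set.ncard_le_ncard_of_injOn (vec d) hmaps hinj V.finite_toSet
    rw [Set.ncard_coe_finset] at h1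
    have h2 : ((Exceptional n d H ((H : ℝ) ^ κ) A).ncard : ℝ) ≤ V.card := by exact_mod_cast h1
    exact h2.trans hVc
  refine ⟨fun hφ => ?_, hgen⟩
  obtain ⟨η, C, hη, h⟩ := hgen ((n + 1) * θ) hφ
  have hθ0 : 0 < θ := by
    by_contra hcon
    push Not at hcon
    have : θ * σ ≤ 0 := mul_nonpos_of_nonpos_of_nonneg hcon (by linarith)
    linarith
  refine ⟨η, C, hη, fun H hH => ?_⟩
  have hHR : (1 : ℝ) ≤ H := by exact_mod_cast hH
  have hHR0 : (0 : ℝ) < H := by linarith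
  set L : ℕ := ⌊(H : ℝ) ^ θ⌋₊ with hL
  have hL1 : (1 : ℝ) ≤ (H : ℝ) ^ θ := Real.one_le_rpow hHR hθ0.le
  have hLr : (L : ℝ) ≤ (H : ℝ) ^ θ := Nat.floor_le (by positivity)
  set A : Finset (Fin (n + 1) → ℤ) := Fintype.piFinset fun _ => Icc (-(L : ℤ)) L with hA
  have hmem : ∀ x : Fin (n + 1) → ℤ, x ∈ A ↔ ∀ j, |(x j : ℝ)| ≤ (H : ℝ) ^ θ := by
    intro x
    have hz : ∀ z : ℤ, z ∈ Icc (-(L : ℤ)) (L : ℤ) ↔ |(z : ℝ)| ≤ (H : ℝ) ^ θ := by
      intro z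
      rw [mem_Icc, ← abs_le]
      constructor
      · intro h1
        have : |(z : ℝ)| ≤ (L : ℝ) := by exact_mod_cast h1
        exact this.trans hLr
      · intro h1
        have h2 : ((z.natAbs : ℕ) : ℝ) = |(z : ℝ)| := by
          rw [Nat.cast_natAbs]
          push_cast
          rfl
        rw [← h2] at h1
        have h3 : z.natAbs ≤ L := Nat.le_floor h1
        rw [Int.abs_eq_natAbs]
        exact_mod_cast h3
    rw [hA, Fintype.mem_piFinset]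
    exact forall_congr' fun j => hz (x j)
  have hAc : (A.card : ℝ) ≤ 3 ^ (n + 1) * (H : ℝ) ^ (((n : ℝ) + 1) * θ) := by
    have h1 : A.card = (2 * L + 1) ^ (n + 1) := by
      rw [hA, Fintype.card_piFinset]
      simp only [Int.card_Icc, Finset.prod_const, Finset.card_univ, Fintype.card_fin]
      congr 1
      omega
    rw [h1]
    push_cast
    have h2 : 2 * (L : ℝ) + 1 ≤ 3 * (H : ℝ) ^ θ := by linarith
    have h3 : (0 : ℝ) ≤ 2 * (L : ℝ) + 1 := by positivity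
    calc (2 * (L : ℝ) + 1) ^ (n + 1) ≤ (3 * (H : ℝ) ^ θ) ^ (n + 1) :=
          pow_le_pow_left₀ h3 h2 _
      _ = 3 ^ (n + 1) * (H : ℝ) ^ (((n : ℝ) + 1) * θ) := by
          rw [mul_pow]
          congr 1
          rw [← Real.rpow_natCast, ← Real.rpow_mul hHR0.le]
          congr 1
          push_cast
          ring
  have h1 := h H hH A hAc fun x hx => (hmem x).mp hx
  have h2 : (A : Set (Fin (n + 1) → ℤ)) = {x | ∀ j, |(x j : ℝ)| ≤ (H : ℝ) ^ θ} := by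
    ext x
    exact hmem x
  rw [h2] at h1
  exact h1

end Pool.Agent.Results.MP_464c42_nt.AlmostAllHypersurfacePairs
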