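import Pool.Agent.TH138.LG.AffWords2

set_option autoImplicit false

/-!
# Context-free families of integral points on affine varieties of log general type

Let `V` be the integral closed subvariety of affine `n`-space over a number field `k` given by the
polynomials in the finite set `FF`.  A word `a₁ ⋯ a_m` in the letters of an alphabet `A` represents
the vector `M ρ(a₁) ⋯ ρ(a_m) v`, where the `ρ(a)` are invertible `r × r` matrices, `M` is an `n × r`
matrix and `v` a vector, over a number field `K ⊇ k`.

(1) If `V` is not dominated by images of the multiplicative group (for instance if `V` is of log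
general type), then for each `r` there is ONE hypersurface `G = 0` not containing `V` such that, for
all number fields `K ⊇ k`, all finite alphabets and all `ρ, M, v` as above: if all words of a
context-free language represent points of `V`, then only finitely many of these points are not on
`G = 0`.  More precisely these points are represented by the words of length at most
`width ^ (N p ^ (2 [K : ℚ] r ^ 2))` of the language, where `N` is the number of left-hand sides of
rules of the grammar, `width` the largest length of a right-hand side of a rule (at least 1), and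
`p` is any odd prime such that all `ρ(a)` and `ρ(a)⁻¹` have `p`-integral entries.

(2) If `V` is dominated by images of the multiplicative group, this fails for some `r`, for all `G`.
-/

namespace Pool.Agent.Results.MP_464c42_nt.ContextFreeIntegral

open NumberField MvPolynomial Pool.Agent.TH717.GO Pool.Agent.TH138.LG

theorem result (k : Type) [Field k] [NumberField k] (n : ℕ)
    (FF : Finset (MvPolynomial (Fin n) k))
    (hprime : (Ideal.span (FF : Set (MvPolynomial (Fin n) k))).IsPrime) :
    (¬ GmUniruled (Ideal.span (FF : Set (MvPolynomial (Fin n) k))) →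
      ∀ r : ℕ, ∃ G : MvPolynomial (Fin n) k,
        G ∉ Ideal.span (FF : Set (MvPolynomial (Fin n) k)) ∧
        ∀ (K : Type) [Field K] [NumberField K] [Algebra k K] (A : Type)
          (M : Matrix (Fin n) (Fin r) K) (ρ : A → Matrix.GeneralLinearGroup (Fin r) K)
          (v : Fin r → K) (g : ContextFreeGrammar A),
          (∀ w ∈ g.language, ∀ F ∈ FF, aeval (affVec M ρ v w) F = 0) →
          (Finite A → (affPts G M ρ v g.language).Finite) ∧
          ∀ (p : ℕ) (hp : p.Prime), 3 ≤ p → (∀ a, ρ a ∈ GLp hp r) →
            affPts G M ρ v g.language = affPts G M ρ v {w | w ∈ g.language ∧ w.length ≤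
              width g ^ ((inputs g).card * p ^ (2 * Module.finrank ℚ K * r ^ 2))}) ∧
    (GmUniruled (Ideal.span (FF : Set (MvPolynomial (Fin n) k))) →
      ∃ r : ℕ, ∀ G : MvPolynomial (Fin n) k,
        G ∉ Ideal.span (FF : Set (MvPolynomial (Fin n) k)) →
        ∃ (K : Type) (_ : Field K) (_ : NumberField K) (_ : Algebra k K)
          (M : Matrix (Fin n) (Fin r) K) (ρ : Unit → Matrix.GeneralLinearGroup (Fin r) K)
          (v : Fin r → K) (g : ContextFreeGrammar Unit),
          (∀ w ∈ g.language, ∀ F ∈ FF, aeval (affVec M ρ v w) F = 0) ∧
          (affPts G M ρ v g.language).Infinite) := by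
  refine ⟨fun hnu r => ?_, fun hu => ?_⟩
  · obtain ⟨G, hG1, hG2⟩ := exists_hyperL FF hprime hnu ((r * r + 1) * (r * r + 1))
    refine ⟨G, hG1, ?_⟩
    intro K _ _ _ A M ρ v g hX
    have key : ∀ (p : ℕ) (hp : p.Prime), 3 ≤ p → (∀ a, ρ a ∈ GLp hp r) →
        affPts G M ρ v g.language = affPts G M ρ v {w | w ∈ g.language ∧ w.length ≤
          width g ^ ((inputs g).card * p ^ (2 * Module.finrank ℚ K * r ^ 2))} := by
      intro p hp hp3 hρ
      exact words_affG (FF : Set (MvPolynomial (Fin n) k)) G hG2 hp hp3 M ρ hρ v g hX
    refine ⟨fun hA => ?_, key⟩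
    obtain ⟨p, hp, hp3, hρ⟩ := exists_prime_letters ρ
    rw [key p hp hp3 hρ]
    exact affPts_finite G M ρ v _ _
  · exact converse_aff (FF : Set (MvPolynomial (Fin n) k)) hu

end Pool.Agent.Results.MP_464c42_nt.ContextFreeIntegral
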