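import Mathlib
import Pool.Agent.TH551.HA.OrbFin

/-!
# MP_464c42_nt: sparse Campana points

Let `X` be a projective variety over `ℚ` in projective `n`-space (the zero set of forms which
generate a prime ideal), `B 1, …, B q` forms of positive degree which do not vanish on `X`, `D i`
the intersection of `X` with `B i = 0` and `m i` multiplicities in `ℕ ∪ {∞}`, at least one of them
`∞`. If the C-pair `(X, ∑ (1 - 1 / m i) D i)` is not covered by orbifold `𝔾_m`-curves (`OrbUniruled`
below; a C-pair of general type is not expected to be), then its Campana points that are sparse are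
not Zariski dense in `X`, in the following sense. Let a finitely generated group `Γ` of rational
numbers (for instance the `S`-units), `k`, `p`, and exponents `e j ≥ m (τ j)` for `1 ≤ j ≤ p` be
given. There is a proper closed subset `G = 0` of `X` and a constant `C` such that for all `M ≥ 1`
every point `x` of `X` outside `G = 0`

* whose coordinates are sums of `k` products `u a`, `u ∈ Γ`, `a` an integer with `|a| ≤ M`, and
* for which `B i (x) = w i ∏_{τ j = i} z j ^ (e j)`, `w i ∈ Γ`, `z j` sums of the same kind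

has height `h(x) ≤ C (1 + log M)`. So for digits `a` from a fixed finite set there are only
finitely many of them, and for `x` outside `G = 0` the digits must be of size at least a positive
power of the height of the point.
(If `m i = ∞` there is no `j` with `τ j = i`, and `B i (x) ∈ Γ` is the condition that `x` is
`S`-integral for `D i`. One `m i = ∞` makes the coordinates of `x` coprime outside `S`, so that
the second condition is about the point and not its coordinates.)
-/

set_option autoImplicit false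

namespace Pool.Agent.Results.MP_464c42_nt.SparseCampanaPoints

open Height

theorem result (n q p k : ℕ)
    (FF : Finset (MvPolynomial (Fin (n + 1)) ℚ)) (hhom : ∀ F ∈ FF, ∃ e, F.IsHomogeneous e)
    (hprime : (Ideal.span (FF : Set (MvPolynomial (Fin (n + 1)) ℚ))).IsPrime)
    (B : Fin q → MvPolynomial (Fin (n + 1)) ℚ)
    (hB : ∀ i, B i ∉ Ideal.span (FF : Set (MvPolynomial (Fin (n + 1)) ℚ)) ∧
      ∃ e, 1 ≤ e ∧ (B i).IsHomogeneous e)
    (m : Fin q → ℕ∞) (hm : ∃ i, m i = ⊤)
    (hnu : ¬ Pool.Agent.TH551.HA.OrbUniruled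
      (Ideal.span (FF : Set (MvPolynomial (Fin (n + 1)) ℚ))) B m)
    (τ : Fin p → Fin q) (e : Fin p → ℕ) (he : ∀ j, m (τ j) ≤ (e j : ℕ∞))
    (Γ : Subgroup ℚˣ) (hΓ : Γ.FG) :
    ∃ (G : MvPolynomial (Fin (n + 1)) ℚ) (C : ℝ), (∃ e, G.IsHomogeneous e) ∧
      G ∉ Ideal.span (FF : Set (MvPolynomial (Fin (n + 1)) ℚ)) ∧
      ∀ M : ℝ, 1 ≤ M → ∀ (u : Fin (n + 1) → Fin k → Γ) (v : Fin p → Fin k → Γ)
        (a : Fin (n + 1) → Fin k → ℤ) (c : Fin p → Fin k → ℤ),
        (∀ i j, |(a i j : ℝ)| ≤ M) → (∀ i j, |(c i j : ℝ)| ≤ M) →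
        ∀ (x : Fin (n + 1) → ℚ) (z : Fin p → ℚ) (w : Fin q → ℚ),
        (∀ i, x i = ∑ j, ((u i j : ℚˣ) : ℚ) * a i j) →
        (∀ i, z i = ∑ j, ((v i j : ℚˣ) : ℚ) * c i j) →
        (∀ i, ∃ g ∈ Γ, w i = ((g : ℚˣ) : ℚ)) →
        (∀ F ∈ FF, MvPolynomial.aeval x F = 0) →
        (∀ i, MvPolynomial.aeval x (B i) = w i * ∏ j with τ j = i, z j ^ (e j)) →
        MvPolynomial.aeval x G ≠ 0 → logHeight x ≤ C * (1 + Real.log M) :=
  Pool.Agent.TH551.HA.campana n q p k FF hhom hprime B hB m hm hnu τ e he Γ hΓ

end Pool.Agent.Results.MP_464c42_nt.SparseCampanaPoints
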