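import Mathlib
import Pool.Agent.TH717.GO.AU

set_option autoImplicit false

/-!
# Uniformity for integral points on affine varieties in orbits of linear groups

Let `V` be the integral closed subvariety of affine `n`-space over a number field `k` given by the
polynomials in the finite set `FF`.  Put
`bd r D = ∏_{f = 1}^{D} |GL_r(𝔽_{2^f})| |GL_r(𝔽_{3^f})|`.

(1) Suppose that `V` is not dominated by images of the multiplicative group (for instance that `V`
is of log general type, of positive dimension).  For each `r` there is ONE polynomial `G` which does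
not vanish on `V` such that for ALL `D`, ALL number fields `K ⊇ k` of degree at most `D` over `ℚ`,
ALL groups `H`, ALL representations `ρ : H → GL_r(K)`, all `n × r` matrices `M` and vectors `v` over
`K`: if all the vectors `M ρ(h) v`, `h ∈ H`, are points of `V`, then at most `bd r D` of them are not
on `G = 0`.  Neither finite generation nor integrality is assumed, and the bound depends only on `r`
and `D`.

(2) The same holds with `G = 1` if over no field extension of `k` there is a nonconstant image of the
multiplicative group in `V`.

(3) If `V` is dominated by images of the multiplicative group, then for some `r` and for each `G`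
which does not vanish on `V` there are a number field `K ⊇ k` and such an orbit of the infinite cyclic
group with infinitely many points off `G = 0`.

Method: the elements whose eigenvalues generate a torsion-free group generate a normal subgroup `N`
of `H`; the coordinates of the orbit along such an element are exponential polynomials which behave
like Laurent polynomials, so the vector is constant on the cosets of `N` off `G = 0`; the index of
`N` is bounded as in Minkowski's theorem on finite groups of matrices.
-/

namespace Pool.Agent.Results.MP_464c42_nt.UniformLinearOrbits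

open NumberField MvPolynomial Pool.Agent.TH717.GO Pool.Agent.TH138.LG

theorem result (k : Type) [Field k] [NumberField k] (n : ℕ)
    (FF : Finset (MvPolynomial (Fin n) k))
    (hprime : (Ideal.span (FF : Set (MvPolynomial (Fin n) k))).IsPrime) :
    (¬ GmUniruled (Ideal.span (FF : Set (MvPolynomial (Fin n) k))) →
      ∀ r : ℕ, ∃ G : MvPolynomial (Fin n) k,
        G ∉ Ideal.span (FF : Set (MvPolynomial (Fin n) k)) ∧
        ∀ (D : ℕ) (K : Type) [Field K] [NumberField K] [Algebra k K], Module.finrank ℚ K ≤ D →
          ∀ (H : Type) [Group H] (M : Matrix (Fin n) (Fin r) K)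
          (ρ : H →* Matrix.GeneralLinearGroup (Fin r) K) (v : Fin r → K),
          (∀ h, ∀ F ∈ FF, aeval (gVec M ρ v h) F = 0) →
          (gPts G M ρ v).encard ≤ bd r D) ∧
    ((∀ (L : Type) [Field L] [Algebra k L] (s : ℕ) (c : Fin s → Fin n → L) (l : Fin s → ℤ),
        (∀ F ∈ FF, aeval (curL c l) F = 0) → ∀ i, ∃ a : L, curL c l i = LaurentPolynomial.C a) →
      ∀ (r D : ℕ) (K : Type) [Field K] [NumberField K] [Algebra k K], Module.finrank ℚ K ≤ D →
        ∀ (H : Type) [Group H] (M : Matrix (Fin n) (Fin r) K)
        (ρ : H →* Matrix.GeneralLinearGroup (Fin r) K) (v : Fin r → K),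
        (∀ h, ∀ F ∈ FF, aeval (gVec M ρ v h) F = 0) →
        (Set.range (gVec M ρ v)).encard ≤ bd r D) ∧
    (GmUniruled (Ideal.span (FF : Set (MvPolynomial (Fin n) k))) →
      ∃ r : ℕ, ∀ G : MvPolynomial (Fin n) k,
        G ∉ Ideal.span (FF : Set (MvPolynomial (Fin n) k)) →
        ∃ (K : Type) (_ : Field K) (_ : NumberField K) (_ : Algebra k K)
          (M : Matrix (Fin n) (Fin r) K)
          (ρ : Multiplicative ℤ →* Matrix.GeneralLinearGroup (Fin r) K) (v : Fin r → K),
          (∀ h, ∀ F ∈ FF, aeval (gVec M ρ v h) F = 0) ∧
          (gPts G M ρ v).Infinite) := by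
  refine ⟨fun hnu r => ?_, fun hno r D K _ _ _ hD H _ M ρ v hX => ?_, fun hu => ?_⟩
  · obtain ⟨G, hG1, hG2⟩ := exists_hyperL FF hprime hnu ((r + 1) * (r + 1))
    refine ⟨G, hG1, ?_⟩
    intro D K _ _ _ hD H _ M ρ v hX
    exact uni_core_aff (FF : Set (MvPolynomial (Fin n) k)) G hG2
      (specDeg_of_numberField K D hD) M ρ v hX
  · have h1 := uni_core_aff (FF : Set (MvPolynomial (Fin n) k)) (1 : MvPolynomial (Fin n) k)
      (r := r) (fun L _ _ c l h2 ⟨i, h3⟩ => by
        obtain ⟨a, ha⟩ := hno L _ c l h2 i
        exact absurd ha (h3 a)) (specDeg_of_numberField K D hD) M ρ v hX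
    have h2 : Set.range (gVec M ρ v) = gPts (1 : MvPolynomial (Fin n) k) M ρ v := by
      ext x
      constructor
      · rintro ⟨h, rfl⟩
        exact ⟨h, rfl, by rw [map_one]; exact one_ne_zero⟩
      · rintro ⟨h, rfl, -⟩
        exact ⟨h, rfl⟩
    rw [h2]
    exact h1
  · exact converse_affG (FF : Set (MvPolynomial (Fin n) k)) hu

end Pool.Agent.Results.MP_464c42_nt.UniformLinearOrbits
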